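import Pool.Agent.H560.SI.Stm
import Pool.Agent.H523.RH2

/-!
# Project SI (helper560), task PRD: products of irreducible polynomials of given degrees in short
intervals, from Weil's theorem for the Hayes characters
-/

set_option autoImplicit false
set_option linter.unusedSectionVars false

namespace Pool.Agent.H32.SI

open Polynomial Finset
open scoped Classical
open Pool.Agent.H341R2.Sharp (Mon mem_Mon)
open Pool.Agent.H523.FF (Ir mem_Ir Ir_disj)
open Pool.Agent.H523.RH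
open Pool.Agent.H694.Typ (Mn Irn mem_Irn mem_Mn card_Mn)
open Pool.Agent.Q284 Pool.Agent.Q284.WE
open Pool.Agent.H560.SI (S_prd)

variable {F : Type} [Field F] [Fintype F]

theorem irn_eq (d : ℕ) : Irn F d = Ir F d := by
  ext P
  rw [mem_Irn, mem_Ir]
  tauto

theorem card_Mon (d : ℕ) : (Mon F d).card = Fintype.card F ^ d := by
  rw [← card_Mn]
  congr 1
  ext P
  rw [mem_Mon, mem_Mn]

theorem Phi_one (κ : ℕ) : Phi (1 : F[X]) κ = Fintype.card F ^ κ := by
  unfold Phi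
  rw [natDegree_one, zero_add, ← card_Mon]
  congr 1
  exact filter_true_of_mem fun f _ => isCoprime_one_right

/-- the sum of a nonprincipal character over the irreducible polynomials of degree `a` -/
theorem norm_sum_irn {κ a : ℕ} (ha : 1 ≤ a) {χ : MulChar (BB (1 : F[X]) κ) ℂ}
    (hχ : NonPr 1 (gχ 1 κ χ)) :
    ‖∑ P ∈ Ir F a, χ (cl 1 κ P)‖ ≤ ((κ : ℝ) + 2) * (√(Fintype.card F : ℝ)) ^ a := by
  have hM : (1 : F[X]).Monic := monic_one
  have hfin := finite_BB hM κ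
  have h1 := weil_hayes F 1 κ (gχ 1 κ χ) (gχ_hay hM χ) hχ a ha
  have h2 : trc (gχ 1 κ χ) a = (a : ℂ) * ∑ P ∈ Ir F a, χ (cl 1 κ P) +
      ∑ d ∈ a.properDivisors, ∑ P ∈ Ir F d,
        (P.natDegree : ℂ) * gχ 1 κ χ P ^ (a / P.natDegree) := by
    unfold trc
    rw [PD_eq a ha, Finset.sum_biUnion (fun a _ b _ hab => Ir_disj a trivial b trivial hab),
      ← Nat.insert_self_properDivisors (by omega), Finset.sum_insert Nat.self_notMem_properDivisors]
    congr 1
    rw [mul_sum]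
    refine sum_congr rfl fun P hP => ?_
    have hP := mem_Ir.mp hP
    rw [hP.2.2, Nat.div_self (by omega), pow_one, gχ_monic χ hP.1]
  have h3 : ‖∑ d ∈ a.properDivisors, ∑ P ∈ Ir F d,
      (P.natDegree : ℂ) * gχ 1 κ χ P ^ (a / P.natDegree)‖ ≤
      2 * (√(Fintype.card F : ℝ)) ^ a := by
    refine (norm_sum_le _ _).trans ?_
    refine (sum_le_sum fun d _ => norm_sum_le _ _).trans ?_
    refine le_trans ?_ ((proper_le F a ha).trans
      (mul_le_mul_of_nonneg_left (half_le a) (by norm_num)))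
    refine sum_le_sum fun d _ => sum_le_sum fun P hP => ?_
    have hP := mem_Ir.mp hP
    rw [norm_mul, Complex.norm_natCast, norm_pow]
    refine mul_le_of_le_one_right (Nat.cast_nonneg _) (pow_le_one₀ (norm_nonneg _) ?_)
    rw [gχ_monic χ hP.1, norm_char χ ((isUnit_cl_iff hP.1).mpr isCoprime_one_right)]
  have h4 : (a : ℂ) * ∑ P ∈ Ir F a, χ (cl 1 κ P) = trc (gχ 1 κ χ) a -
      ∑ d ∈ a.properDivisors, ∑ P ∈ Ir F d,
        (P.natDegree : ℂ) * gχ 1 κ χ P ^ (a / P.natDegree) := by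
    rw [h2]
    ring
  have h5 : ‖(a : ℂ) * ∑ P ∈ Ir F a, χ (cl 1 κ P)‖ ≤
      ((κ : ℝ) + 2) * (√(Fintype.card F : ℝ)) ^ a := by
    rw [h4]
    refine (norm_sub_le _ _).trans ?_
    rw [natDegree_one, zero_add] at h1
    linarith
  refine le_trans ?_ h5
  rw [norm_mul, Complex.norm_natCast]
  refine le_mul_of_one_le_left (norm_nonneg _) ?_
  exact_mod_cast ha

/-- the number of the principal characters -/
theorem card_principal {M : F[X]} (hM : M.Monic) (κ : ℕ) [Fintype (MulChar (BB M κ) ℂ)] :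
    (((univ.filter (fun χ : MulChar (BB M κ) ℂ => ¬ NonPr M (gχ M κ χ))).card : ℂ)) *
      (Phi M κ : ℂ) = (Nat.card (BB M κ)ˣ : ℂ) := by
  have := finite_BB hM κ
  set G : ℂ := (Nat.card (BB M κ)ˣ : ℂ) with hG
  set PR : Finset (MulChar (BB M κ) ℂ) := univ.filter (fun χ => ¬ NonPr M (gχ M κ χ)) with hPR
  have hprin : ∀ χ ∈ PR, ∀ f : F[X], f.Monic → IsCoprime f M → χ (cl M κ f) = 1 := by
    intro χ hχ f hf hfc
    rw [hPR, mem_filter] at hχ
    by_contra hne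
    exact hχ.2 ⟨f, hf, hfc, by rw [gχ_monic χ hf]; exact hne⟩
  have hdetect : ∀ x : BB M κ, ∑ χ : MulChar (BB M κ) ℂ, χ x =
      if x = cl M κ 1 then G else 0 := by
    intro x
    rw [cl_one]
    split_ifs with h
    · rw [h]
      exact sum_char_one
    · exact sum_char_ne h
  have h1 : ∑ f ∈ Mon F (M.natDegree + κ), ∑ χ : MulChar (BB M κ) ℂ, χ (cl M κ f) = G := by
    rw [sum_congr rfl (fun f _ => hdetect (cl M κ f)), ← sum_filter, sum_const,
      card_fiber hM κ 1 monic_one, one_smul]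
  rw [sum_comm] at h1
  have h2 : ∀ χ : MulChar (BB M κ) ℂ, ∑ f ∈ Mon F (M.natDegree + κ), χ (cl M κ f) =
      if χ ∈ PR then (Phi M κ : ℂ) else 0 := by
    intro χ
    have h3 : ∑ f ∈ Mon F (M.natDegree + κ), χ (cl M κ f) =
        ∑ f ∈ Mon F (M.natDegree + κ), gχ M κ χ f :=
      sum_congr rfl (fun f hf => (gχ_monic χ (mem_Mon.mp hf).1).symm)
    split_ifs with h
    · unfold Phi
      rw [card_filter]
      push_cast
      refine sum_congr rfl (fun f hf => ?_)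
      have hfm := (mem_Mon.mp hf).1
      split_ifs with hcf
      · exact hprin χ h f hfm hcf
      · exact χ.map_nonunit (fun hh => hcf ((isUnit_cl_iff hfm).mp hh))
    · rw [h3]
      have h4 : NonPr M (gχ M κ χ) := by
        by_contra h5
        exact h (mem_filter.mpr ⟨mem_univ _, h5⟩)
      rw [Pool.Agent.Q265.WE.AL_eq_zero (gχ_hay hM χ) h4 le_rfl]
  rw [sum_congr rfl (fun χ _ => h2 χ), sum_ite_mem, univ_inter, sum_const, nsmul_eq_mul] at h1
  exact h1

theorem cl_prod (M : F[X]) (κ : ℕ) {ι : Type} (s : Finset ι) (f : ι → F[X]) :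
    cl M κ (∏ i ∈ s, f i) = ∏ i ∈ s, cl M κ (f i) := by
  induction s using Finset.induction_on with
  | empty => rw [prod_empty, prod_empty, cl_one]
  | insert i s hi ih => rw [prod_insert hi, prod_insert hi, cl_mul, ih]

/-- **Task PRD** -/
theorem prd : S_prd := by
  intro K _ _ r hr
  refine ⟨3, by norm_num, ?_⟩
  intro N H a S ha hN hH hS hSN
  obtain ⟨κ, hκ⟩ : ∃ κ, κ = N - H := ⟨_, rfl⟩
  have hM : (1 : K[X]).Monic := monic_one
  have hfin := finite_BB hM κ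
  have : Finite (MulChar (BB (1 : K[X]) κ) ℂ) := inferInstance
  let _ : Fintype (MulChar (BB (1 : K[X]) κ) ℂ) := Fintype.ofFinite _
  obtain ⟨u, hu⟩ := (isUnit_cl_iff (κ := κ) hS).mpr (isCoprime_one_right (x := S))
  have hG : 0 < Nat.card (BB (1 : K[X]) κ)ˣ := Nat.card_pos
  obtain ⟨G, hGd⟩ : ∃ G : ℕ, G = Nat.card (BB (1 : K[X]) κ)ˣ := ⟨_, rfl⟩
  rw [← hGd] at hG
  have hq2 : (2 : ℝ) ≤ (Fintype.card K : ℝ) := Pool.Agent.H523.FF.two_le_card
  obtain ⟨q, hq⟩ : ∃ q : ℝ, q = (Fintype.card K : ℝ) := ⟨_, rfl⟩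
  rw [← hq] at hq2 ⊢
  have hr1 : 1 ≤ N := by
    rw [← hN]
    refine (ha ⟨0, hr⟩).trans ?_
    exact single_le_sum (f := a) (fun i _ => Nat.zero_le _) (mem_univ _)
  -- the counting function
  have hset : ((Fintype.piFinset fun i => Irn K (a i)).filter
      (fun P => (∏ i, P i - S).degree < (H : WithBot ℕ))) =
      (Fintype.piFinset fun i => Ir K (a i)).filter (fun P => cl 1 κ (∏ i, P i) = cl 1 κ S) := by
    have h0 : (fun i => Irn K (a i)) = fun i => Ir K (a i) := funext fun i => irn_eq _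
    rw [h0]
    refine filter_congr fun P hP => ?_
    rw [Fintype.mem_piFinset] at hP
    have hPm : ∀ i, (P i).Monic := fun i => (mem_Ir.mp (hP i)).1
    have hmon : ∏ i, P i ∈ Mon K N := by
      rw [mem_Mon]
      refine ⟨monic_prod_of_monic _ _ fun i _ => hPm i, ?_⟩
      rw [natDegree_prod_of_monic _ _ fun i _ => hPm i, ← hN]
      exact sum_congr rfl fun i _ => (mem_Ir.mp (hP i)).2.2
    rw [cl_eq_iff (M := 1) (by omega : κ ≤ N) hmon (mem_Mon.mpr ⟨hS, hSN⟩)]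
    have : N - κ = H := by omega
    rw [this]
    exact ⟨fun h => ⟨one_dvd _, h⟩, fun h => h.2⟩
  rw [hset]
  obtain ⟨c, hc⟩ : ∃ c : ℕ, c = ((Fintype.piFinset fun i => Ir K (a i)).filter
    (fun P => cl 1 κ (∏ i, P i) = cl 1 κ S)).card := ⟨_, rfl⟩
  rw [← hc]
  have hirn : ∀ i, (Irn K (a i)).card = (Ir K (a i)).card := fun i => by rw [irn_eq]
  simp only [hirn]
  -- the character sum
  have hmain : (G : ℂ) * (c : ℂ) = ∑ χ : MulChar (BB (1 : K[X]) κ) ℂ,
      χ (↑u⁻¹ : BB (1 : K[X]) κ) * ∏ i, ∑ P ∈ Ir K (a i), χ (cl 1 κ P) := by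
    have h1 : ∀ χ : MulChar (BB (1 : K[X]) κ) ℂ,
        χ (↑u⁻¹ : BB (1 : K[X]) κ) * ∏ i, ∑ P ∈ Ir K (a i), χ (cl 1 κ P) =
        ∑ P ∈ Fintype.piFinset fun i => Ir K (a i),
          χ (↑u⁻¹ : BB (1 : K[X]) κ) * χ (cl 1 κ (∏ i, P i)) := by
      intro χ
      rw [Finset.prod_univ_sum, mul_sum]
      refine sum_congr rfl fun P _ => ?_
      rw [cl_prod, map_prod]
    rw [sum_congr rfl fun χ _ => h1 χ, sum_comm]
    have h2 : ∀ x : BB (1 : K[X]) κ, ∑ χ : MulChar (BB (1 : K[X]) κ) ℂ,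
        χ (↑u⁻¹ : BB (1 : K[X]) κ) * χ x = if x = cl 1 κ S then (G : ℂ) else 0 := by
      intro x
      rw [detect u x, hu, hGd]
      split_ifs <;> rfl
    rw [sum_congr rfl fun P _ => h2 _, ← sum_filter, sum_const, nsmul_eq_mul, ← hc, mul_comm]
  -- the principal characters
  obtain ⟨PR, hPR⟩ : ∃ PR : Finset (MulChar (BB (1 : K[X]) κ) ℂ),
    PR = univ.filter (fun χ => ¬ NonPr 1 (gχ 1 κ χ)) := ⟨_, rfl⟩
  have hcount : (PR.card : ℂ) * ((q : ℝ) : ℂ) ^ κ = (G : ℂ) := by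
    have h1 := card_principal hM κ
    rw [← hPR, Phi_one, ← hGd] at h1
    rw [← h1, hq]
    push_cast
    rfl
  have hprin : ∀ χ ∈ PR, ∀ f : K[X], f.Monic → χ (cl 1 κ f) = 1 := by
    intro χ hχ f hf
    rw [hPR, mem_filter] at hχ
    by_contra hne
    exact hχ.2 ⟨f, hf, isCoprime_one_right, by rw [gχ_monic χ hf]; exact hne⟩
  have hprsum : ∀ χ ∈ PR, χ (↑u⁻¹ : BB (1 : K[X]) κ) * ∏ i, ∑ P ∈ Ir K (a i), χ (cl 1 κ P) =
      ∏ i, ((Ir K (a i)).card : ℂ) := by
    intro χ hχ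
    have h1 : χ (↑u⁻¹ : BB (1 : K[X]) κ) * χ (u : BB (1 : K[X]) κ) = 1 := by
      rw [← map_mul, Units.inv_mul, map_one]
    rw [hu, hprin χ hχ S hS, mul_one] at h1
    rw [h1, one_mul]
    refine prod_congr rfl fun i _ => ?_
    rw [sum_congr rfl fun P hP => hprin χ hχ P (mem_Ir.mp hP).1, sum_const, nsmul_eq_mul, mul_one]
  have hsplit := sum_filter_add_sum_filter_not (univ : Finset (MulChar (BB (1 : K[X]) κ) ℂ))
    (fun χ => NonPr 1 (gχ 1 κ χ)) (fun χ => χ (↑u⁻¹ : BB (1 : K[X]) κ) *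
      ∏ i, ∑ P ∈ Ir K (a i), χ (cl 1 κ P))
  rw [← hPR, sum_congr rfl hprsum, sum_const, nsmul_eq_mul, ← hmain] at hsplit
  -- the error term
  have hsq : (0 : ℝ) ≤ √q := Real.sqrt_nonneg _
  have herr : ‖∑ χ ∈ univ.filter (fun χ : MulChar (BB (1 : K[X]) κ) ℂ => NonPr 1 (gχ 1 κ χ)),
      χ (↑u⁻¹ : BB (1 : K[X]) κ) * ∏ i, ∑ P ∈ Ir K (a i), χ (cl 1 κ P)‖ ≤
      G * ((3 * N : ℝ) ^ r * (√q) ^ N) := by
    refine (norm_sum_le _ _).trans ?_
    have h1 : ∀ χ ∈ univ.filter (fun χ : MulChar (BB (1 : K[X]) κ) ℂ => NonPr 1 (gχ 1 κ χ)),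
        ‖χ (↑u⁻¹ : BB (1 : K[X]) κ) * ∏ i, ∑ P ∈ Ir K (a i), χ (cl 1 κ P)‖ ≤
        (3 * N : ℝ) ^ r * (√q) ^ N := by
      intro χ hχ
      rw [mem_filter] at hχ
      rw [norm_mul, norm_char χ (Units.isUnit _), one_mul, norm_prod]
      calc ∏ i, ‖∑ P ∈ Ir K (a i), χ (cl 1 κ P)‖ ≤ ∏ i, ((3 * N : ℝ) * (√q) ^ (a i)) := by
            refine prod_le_prod (fun i _ => norm_nonneg _) fun i _ => ?_
            have h2 := norm_sum_irn (ha i) hχ.2
            rw [← hq] at h2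
            refine h2.trans (mul_le_mul_of_nonneg_right ?_ (pow_nonneg hsq _))
            have h3 : (κ : ℝ) ≤ N := by
              rw [hκ]
              exact_mod_cast Nat.sub_le N H
            have h4 : (1 : ℝ) ≤ N := by exact_mod_cast hr1
            linarith
        _ = (3 * N : ℝ) ^ r * (√q) ^ N := by
            rw [prod_mul_distrib, prod_const, card_univ, Fintype.card_fin, prod_pow_eq_pow_sum, hN]
    refine (sum_le_sum h1).trans ?_
    rw [sum_const, nsmul_eq_mul]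
    refine mul_le_mul_of_nonneg_right ?_ (by positivity)
    have h2 : Fintype.card (MulChar (BB (1 : K[X]) κ) ℂ) = G := by
      rw [hGd, ← MulChar.card_eq_card_units_of_hasEnoughRootsOfUnity (BB (1 : K[X]) κ) ℂ,
        Nat.card_eq_fintype_card]
    rw [← h2]
    exact_mod_cast card_le_univ _
  -- conclusion
  have hG0 : (0 : ℝ) < G := by exact_mod_cast hG
  have hqκ : (0 : ℝ) < q ^ κ := by positivity
  have hmt : (∏ i, ((Ir K (a i)).card : ℝ)) * q ^ H / q ^ N =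
      (∏ i, ((Ir K (a i)).card : ℝ)) / q ^ κ := by
    have : q ^ N = q ^ H * q ^ κ := by
      rw [← pow_add]
      congr 1
      omega
    rw [this]
    have h2 : (0 : ℝ) < q ^ H := by positivity
    field_simp
  rw [hmt]
  have hsqN : q ^ ((N : ℝ) / 2) = (√q) ^ N := by
    rw [Real.sqrt_eq_rpow, ← Real.rpow_natCast, ← Real.rpow_mul (by linarith)]
    congr 1
    ring
  rw [hsqN]
  have hcountR : (PR.card : ℝ) * q ^ κ = G := by exact_mod_cast hcount
  have hkey : ((G * ((c : ℝ) - (∏ i, ((Ir K (a i)).card : ℝ)) / q ^ κ) : ℝ) : ℂ) =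
      ∑ χ ∈ univ.filter (fun χ : MulChar (BB (1 : K[X]) κ) ℂ => NonPr 1 (gχ 1 κ χ)),
      χ (↑u⁻¹ : BB (1 : K[X]) κ) * ∏ i, ∑ P ∈ Ir K (a i), χ (cl 1 κ P) := by
    have h1 : (G : ℝ) * ((c : ℝ) - (∏ i, ((Ir K (a i)).card : ℝ)) / q ^ κ) =
        G * c - PR.card * ∏ i, ((Ir K (a i)).card : ℝ) := by
      rw [← hcountR]
      field_simp
    rw [h1]
    push_cast
    rw [← hsplit]
    ring
  rw [← hkey, Complex.norm_real, Real.norm_eq_abs, abs_mul, abs_of_pos hG0] at herr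
  exact le_of_mul_le_mul_left herr hG0

end Pool.Agent.H32.SI
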